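import Pool.Agent.H46R2.SY.CYC
import Pool.Agent.H46R2.SY.INV
import Pool.Agent.H46R2.SY.MIN
import Pool.Agent.H46R2.SY.NEU
import Pool.Agent.H46R2.SY.FC
import Pool.Agent.V11180.SY.Sq

/-!
Large finite monochromatic symmetric subsets of infinite groups (MP_76c039_co, Q1): exchanged pairs
suffice.  If every finite colouring of an infinite group `G` gives the same colour to two different
elements that are exchanged by some symmetry `x ↦ g x⁻¹ g`, then every finite colouring of `G` has
one-coloured symmetric sets of every finite size.  So a counterexample to Q1 has a finite colouring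
without any one-coloured exchanged pair.
-/

set_option autoImplicit false

namespace Pool.Agent.Results.MP_76c039_co.PairsSuffice

/-- Every finite colouring of `G` has one-coloured finite symmetric sets of every size. -/
def AllSizes (G : Type) [Group G] : Prop :=
  ∀ (k : ℕ) (c : G → Fin k) (n : ℕ),
    ∃ (A : Finset G) (g : G),
      n ≤ A.card ∧
      (∀ a ∈ A, ∀ b ∈ A, c a = c b) ∧
      (A : Set G) = (fun x => g * x⁻¹ * g) '' (A : Set G)

/-- Every finite colouring of `G` gives the same colour to two different elements `x`, `y` with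
`y = g x⁻¹ g` for some `g`. -/
def Pairs (G : Type) [Group G] : Prop :=
  ∀ (m : ℕ) (f : G → Fin m), ∃ x y g : G, x ≠ y ∧ f x = f y ∧ g * x⁻¹ * g = y

/-- The possible exceptions: the group has bounded exponent; it has only finitely many elements of
order two; it has a finite colouring in which `x` and `g x⁻¹ g` have different colours whenever they
are different; and every infinite subgroup `K` contains an infinite subgroup `H` and an element `t`
of order two which is central in `H` and lies in every infinite subgroup of `H`. -/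
def Exceptional (G : Type) [Group G] : Prop :=
  (∃ N : ℕ, 0 < N ∧ ∀ x : G, x ^ N = 1) ∧
  {x : G | x ^ 2 = 1}.Finite ∧
  (∃ (m : ℕ) (f : G → Fin m), ∀ x g : G, g * x⁻¹ * g ≠ x → f (g * x⁻¹ * g) ≠ f x) ∧
  (∀ K : Subgroup G, (K : Set G).Infinite →
    ∃ H : Subgroup G, H ≤ K ∧ (H : Set G).Infinite ∧
      ∃ t ∈ H, t ≠ 1 ∧ t ^ 2 = 1 ∧ (∀ x ∈ H, t * x = x * t) ∧
        ∀ L : Subgroup G, L ≤ H → (L : Set G).Infinite → t ∈ L)

open Pool.Agent.H46R2.SY Pool.Agent.V11180.SY in
theorem nonexceptional (G : Type) [Group G] [Infinite G] (hG : ¬ Exceptional G) : AllSizes G := by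
  have hNEU : S_NEU := t_NEU
  have hGRID : S_GRID := t_GRID hNEU
  have hFC : S_FC := t_FC
  have hODD : S_ODD := t_ODD hGRID hFC t_FIN
  have key : HasSym G := by
    by_contra hfail
    apply hG
    have h1 : ∃ N : ℕ, 0 < N ∧ ∀ x : G, x ^ N = 1 := by
      by_contra hcon
      push Not at hcon
      exact hfail (t_CYC G hcon)
    have h2 : {x : G | x ^ 2 = 1}.Finite := by
      by_contra hcon
      exact hfail (t_INV G hcon)
    obtain ⟨N, hN, hexp⟩ := h1
    have h3 : ∃ (m : ℕ) (f : G → Fin m), ∀ x g : G, g * x⁻¹ * g ≠ x → f (g * x⁻¹ * g) ≠ f x := by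
      by_contra hcon
      push Not at hcon
      refine hfail (t_SQ hNEU hODD hFC N hN hexp h2 ?_)
      intro m f
      obtain ⟨x, g, hne, hf⟩ := hcon m f
      refine ⟨x, g * x⁻¹ * g, g * x⁻¹, hne.symm, hf.symm, ?_⟩
      group
    have h3' : ∀ S : Set G, S.Infinite → ∃ x ∈ S, ∃ y ∈ S, x ≠ y ∧ Even (orderOf (x * y⁻¹)) := by
      intro S hS
      by_contra hcon
      push Not at hcon
      refine hfail (t_SET hGRID hODD hFC N hN hexp h2 S hS ?_)
      intro x hx y hy hxy
      exact Nat.not_even_iff_odd.1 (hcon x hx y hy hxy)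
    refine ⟨⟨N, hN, hexp⟩, h2, h3, ?_⟩
    apply t_MIN G h2
    intro K hK
    obtain ⟨x, hx, y, hy, hxy, m, hm⟩ := h3' K hK
    have hfo : IsOfFinOrder (x * y⁻¹) :=
      isOfFinOrder_iff_pow_eq_one.2 ⟨N, hN, hexp _⟩
    have hpos : 0 < orderOf (x * y⁻¹) := hfo.orderOf_pos
    refine ⟨(x * y⁻¹) ^ m, K.pow_mem (K.mul_mem hx (K.inv_mem hy)) _, ?_, ?_⟩
    · intro h
      have := orderOf_dvd_of_pow_eq_one h
      have := Nat.le_of_dvd (by omega) this
      omega
    · rw [← pow_mul, mul_two, ← hm, pow_orderOf_eq_one]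
  exact key

/-- **Theorem.** Let `G` be an infinite group.
(1) If every finite colouring of `G` has a one-coloured pair exchanged by a symmetry, then every
finite colouring of `G` has one-coloured symmetric sets of every finite size.
(2) If `G` has only finitely many `x` with `x² = 1`, the two properties are equivalent.
(3) Every infinite group that is not exceptional has one-coloured symmetric sets of every finite
size for every finite colouring. -/
theorem result (G : Type) [Group G] [Infinite G] :
    (Pairs G → AllSizes G) ∧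
    ({x : G | x ^ 2 = 1}.Finite → (AllSizes G ↔ Pairs G)) ∧
    (¬ Exceptional G → AllSizes G) := by
  have h1 : Pairs G → AllSizes G := by
    intro h
    apply nonexceptional G
    rintro ⟨-, -, ⟨m, f, hf⟩, -⟩
    obtain ⟨x, y, g, hxy, hc, hg⟩ := h m f
    have := hf x g (by rw [hg]; exact hxy.symm)
    rw [hg] at this
    exact this hc.symm
  refine ⟨h1, fun hfin => ⟨fun h m f => ?_, h1⟩, nonexceptional G⟩
  classical
  obtain ⟨A, g, hA, hc, hs⟩ := h m f (hfin.toFinset.card + 1)
  by_contra hcon
  push Not at hcon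
  have hfix : ∀ x ∈ A, g * x⁻¹ * g = x := by
    intro x hx
    by_contra hne
    have hmem : g * x⁻¹ * g ∈ (A : Set G) := by
      rw [hs]; exact ⟨x, hx, rfl⟩
    exact hcon x (g * x⁻¹ * g) g (Ne.symm hne) (hc x hx _ hmem) rfl
  have hle : A.card ≤ hfin.toFinset.card := by
    apply Finset.card_le_card_of_injOn (fun x => g⁻¹ * x)
    · intro x hx
      have h2 := hfix x hx
      simp only [Finset.mem_coe, Set.Finite.mem_toFinset, Set.mem_ofPred_eq]
      have h3 : g⁻¹ * x = x⁻¹ * g := by
        conv_lhs => rw [← h2]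
        group
      calc (g⁻¹ * x) ^ 2 = (g⁻¹ * x) * (g⁻¹ * x) := pow_two _
        _ = (x⁻¹ * g) * (g⁻¹ * x) := congrArg (· * (g⁻¹ * x)) h3
        _ = 1 := by group
    · intro x _ y _ hxy
      exact mul_left_cancel hxy
  omega

end Pool.Agent.Results.MP_76c039_co.PairsSuffice
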